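import Mathlib

set_option autoImplicit false

open Set Metric Filter Topology

namespace Pool.Agent.Results.MP_294ab0_an.RungeFB

variable {n : ℕ}

/-- The set `W m` of points at which all `f j` with `j ≥ m` are smaller than `M j`. -/
private def tailSet (f : ℕ → (Fin n → ℂ) → ℂ) (M : ℕ → ℝ) (m : ℕ) : Set (Fin n → ℂ) :=
  {z | ∀ j, m ≤ j → ‖f j z‖ < M j}

/-- The open set of all points having a neighbourhood inside some `tailSet`. -/
private def bigSet (f : ℕ → (Fin n → ℂ) → ℂ) (M : ℕ → ℝ) : Set (Fin n → ℂ) :=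
  ⋃ m, interior (tailSet f M m)

private lemma tailSet_mono (f : ℕ → (Fin n → ℂ) → ℂ) (M : ℕ → ℝ) {a b : ℕ} (h : a ≤ b) :
    tailSet f M a ⊆ tailSet f M b := fun _ hz j hj => hz j (h.trans hj)

private lemma isOpen_bigSet (f : ℕ → (Fin n → ℂ) → ℂ) (M : ℕ → ℝ) : IsOpen (bigSet f M) :=
  isOpen_iUnion fun _ => isOpen_interior

/-- A compact subset of `bigSet` lies in one of the interiors. -/
private lemma compact_subset_bigSet (f : ℕ → (Fin n → ℂ) → ℂ) (M : ℕ → ℝ)
    {K : Set (Fin n → ℂ)} (hK : IsCompact K) (hsub : K ⊆ bigSet f M) :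
    ∃ m, K ⊆ interior (tailSet f M m) := by
  refine hK.elim_directed_cover (fun m => interior (tailSet f M m))
    (fun _ => isOpen_interior) hsub ?_
  intro a b
  exact ⟨max a b, interior_mono (tailSet_mono f M (le_max_left _ _)),
    interior_mono (tailSet_mono f M (le_max_right _ _))⟩

/-- Key step: if all `ε`-translates of `K` lie in `tailSet f M m`, then the `ε`-ball about every
point of the entire hull of `K` lies in `tailSet f M m`. -/
private lemma ball_subset_of_hull (f : ℕ → (Fin n → ℂ) → ℂ) (M : ℕ → ℝ)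
    (hf : ∀ j, Differentiable ℂ (f j))
    {K : Set (Fin n → ℂ)} (hK : IsCompact K) (hne : K.Nonempty) {m : ℕ} {ε : ℝ}
    (hε : thickening ε K ⊆ tailSet f M m) {z : Fin n → ℂ}
    (hz : ∀ g : (Fin n → ℂ) → ℂ, Differentiable ℂ g → ∀ c : ℝ, (∀ w ∈ K, ‖g w‖ ≤ c) → ‖g z‖ ≤ c) :
    ball z ε ⊆ tailSet f M m := by
  intro y hy j hj
  have hdiff : Differentiable ℂ (fun x => f j (x + (y - z))) :=
    (hf j).comp (differentiable_id.add_const _)
  obtain ⟨w₀, hw₀K, hw₀⟩ := hK.exists_isMaxOn hne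
    (hdiff.continuous.norm.continuousOn)
  have h1 : ‖f j (z + (y - z))‖ ≤ ‖f j (w₀ + (y - z))‖ :=
    hz _ hdiff _ (fun w hw => hw₀ hw)
  have h2 : w₀ + (y - z) ∈ thickening ε K := by
    rw [mem_thickening_iff]
    refine ⟨w₀, hw₀K, ?_⟩
    rw [mem_ball, dist_eq_norm] at hy
    rw [dist_eq_norm]
    simpa using hy
  have h3 := hε h2 j hj
  have h4 : z + (y - z) = y := by abel
  rw [h4] at h1
  exact lt_of_le_of_lt h1 h3

/-- The entire hull of a compact subset of a component of `bigSet`, intersected with the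
component, is compact. -/
private lemma isCompact_entireHull (f : ℕ → (Fin n → ℂ) → ℂ) (M : ℕ → ℝ)
    (hf : ∀ j, Differentiable ℂ (f j)) (q : Fin n → ℂ)
    {K : Set (Fin n → ℂ)} (hK : IsCompact K) (hKC : K ⊆ connectedComponentIn (bigSet f M) q) :
    IsCompact {z | z ∈ connectedComponentIn (bigSet f M) q ∧
      ∀ g : (Fin n → ℂ) → ℂ, Differentiable ℂ g →
            ∀ c : ℝ, (∀ w ∈ K, ‖g w‖ ≤ c) → ‖g z‖ ≤ c} := by
  set C := connectedComponentIn (bigSet f M) q with hC
  rcases K.eq_empty_or_nonempty with rfl | hne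
  · have : {z | z ∈ C ∧
      ∀ g : (Fin n → ℂ) → ℂ, Differentiable ℂ g →
            ∀ c : ℝ, (∀ w ∈ (∅ : Set (Fin n → ℂ)), ‖g w‖ ≤ c) → ‖g z‖ ≤ c} = ∅ := by
      ext z
      simp only [mem_ofPred_eq, mem_empty_iff_false, iff_false, not_and]
      intro _ h
      have := h (fun _ => 0) (differentiable_const _) (-1) (by simp)
      norm_num at this
    rw [this]
    exact isCompact_empty
  obtain ⟨m, hm⟩ := compact_subset_bigSet f M hK (hKC.trans (connectedComponentIn_subset _ _))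
  obtain ⟨ε, hε0, hε⟩ := hK.exists_thickening_subset_open isOpen_interior hm
  have hε' : thickening ε K ⊆ tailSet f M m := hε.trans interior_subset
  refine Metric.isCompact_of_isClosed_isBounded ?_ ?_
  · -- closed
    refine isClosed_of_closure_subset ?_
    intro z hz
    rw [Metric.mem_closure_iff] at hz
    -- first `z ∈ C`
    have hzC : z ∈ C := by
      obtain ⟨z', hz', hd⟩ := hz ε hε0
      have hb : ball z' ε ⊆ tailSet f M m := ball_subset_of_hull f M hf hK hne hε' hz'.2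
      have hb' : ball z' ε ⊆ bigSet f M :=
        (interior_maximal hb isOpen_ball).trans (subset_iUnion (fun m => interior (tailSet f M m)) m)
      have hpre : IsPreconnected (ball z' ε) := (convex_ball z' ε).isPreconnected
      have h1 : ball z' ε ⊆ connectedComponentIn (bigSet f M) z' :=
        hpre.subset_connectedComponentIn (mem_ball_self hε0) hb'
      have h2 : connectedComponentIn (bigSet f M) z' = C :=
        (connectedComponentIn_eq hz'.1).symm
      rw [h2] at h1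
      exact h1 (by rw [mem_ball]; exact hd)
    refine ⟨hzC, ?_⟩
    intro g hg c hc
    by_contra hlt
    push Not at hlt
    have hcont : Continuous fun x => ‖g x‖ := hg.continuous.norm
    have hopen : IsOpen {x | c < ‖g x‖} := isOpen_lt continuous_const hcont
    obtain ⟨δ, hδ, hδs⟩ := Metric.isOpen_iff.1 hopen z hlt
    obtain ⟨z', hz', hd⟩ := hz δ hδ
    have : z' ∈ ball z δ := by rw [mem_ball, dist_comm]; exact hd
    have h1 := hδs this
    exact absurd (hz'.2 g hg c hc) (not_le.2 h1)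
  · -- bounded
    obtain ⟨R, hR⟩ := hK.isBounded.exists_norm_le
    have hR0 : 0 ≤ R := by
      obtain ⟨w, hw⟩ := hne
      exact (norm_nonneg _).trans (hR w hw)
    refine (isBounded_iff_forall_norm_le).2 ⟨R, ?_⟩
    intro z hz
    refine (pi_norm_le_iff_of_nonneg hR0).2 fun i => ?_
    refine hz.2 (fun x => x i) (differentiable_apply i) R ?_
    intro w hw
    exact (norm_le_pi_norm w i).trans (hR w hw)

/-- Compactness of the hulls with respect to holomorphic functions on an open set follows from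
compactness of the entire hulls. -/
private lemma isCompact_hull_of_entireHull {D : Set (Fin n → ℂ)}
    {K : Set (Fin n → ℂ)}
    (h : IsCompact {z | z ∈ D ∧ ∀ g : (Fin n → ℂ) → ℂ, Differentiable ℂ g →
            ∀ c : ℝ, (∀ w ∈ K, ‖g w‖ ≤ c) → ‖g z‖ ≤ c}) :
    IsCompact {z | z ∈ D ∧ ∀ g : (Fin n → ℂ) → ℂ, DifferentiableOn ℂ g D →
            ∀ c : ℝ, (∀ w ∈ K, ‖g w‖ ≤ c) → ‖g z‖ ≤ c} := by
  set A := {z | z ∈ D ∧ ∀ g : (Fin n → ℂ) → ℂ, Differentiable ℂ g →
            ∀ c : ℝ, (∀ w ∈ K, ‖g w‖ ≤ c) → ‖g z‖ ≤ c} with hA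
  have hsub : {z | z ∈ D ∧ ∀ g : (Fin n → ℂ) → ℂ, DifferentiableOn ℂ g D →
            ∀ c : ℝ, (∀ w ∈ K, ‖g w‖ ≤ c) → ‖g z‖ ≤ c} ⊆ A := by
    intro z hz
    exact ⟨hz.1, fun g hg c hc => hz.2 g hg.differentiableOn c hc⟩
  refine h.of_isClosed_subset ?_ hsub
  refine isClosed_of_closure_subset ?_
  intro z hz
  have hzA : z ∈ A := h.isClosed.closure_subset_iff.2 hsub hz
  refine ⟨hzA.1, ?_⟩
  intro g hg c hc
  have hcont : ContinuousWithinAt (fun x => ‖g x‖) D z :=
    (hg.continuousOn.norm z hzA.1)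
  have hcw : ContinuousWithinAt (fun x => ‖g x‖) {z | z ∈ D ∧ ∀ g : (Fin n → ℂ) → ℂ,
      DifferentiableOn ℂ g D → ∀ c : ℝ, (∀ w ∈ K, ‖g w‖ ≤ c) → ‖g z‖ ≤ c} z :=
    hcont.mono fun x hx => hx.1
  have := hcw.mem_closure_image hz
  have h2 : closure ((fun x => ‖g x‖) '' {z | z ∈ D ∧ ∀ g : (Fin n → ℂ) → ℂ,
      DifferentiableOn ℂ g D → ∀ c : ℝ, (∀ w ∈ K, ‖g w‖ ≤ c) → ‖g z‖ ≤ c}) ⊆ Set.Iic c := by
    refine closure_minimal ?_ isClosed_Iic
    rintro _ ⟨x, hx, rfl⟩
    exact hx.2 g hg c hc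
  exact h2 this

/-- The exhausting compact sets of an open set. -/
private def exh (Ω : Set (Fin n → ℂ)) (m : ℕ) : Set (Fin n → ℂ) :=
  {z | ‖z‖ ≤ m ∧ 1 / ((m : ℝ) + 1) ≤ infDist z Ωᶜ}

private lemma exh_compact (Ω : Set (Fin n → ℂ)) (m : ℕ) : IsCompact (exh Ω m) := by
  refine Metric.isCompact_of_isClosed_isBounded ?_ ?_
  · exact (isClosed_le continuous_norm continuous_const).inter
      (isClosed_le continuous_const (continuous_infDist_pt _))
  · exact (isBounded_iff_forall_norm_le).2 ⟨m, fun z hz => hz.1⟩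

private lemma exh_subset {Ω : Set (Fin n → ℂ)} (m : ℕ) : exh Ω m ⊆ Ω := by
  intro z hz
  by_contra hzΩ
  have h1 : infDist z Ωᶜ = 0 := infDist_zero_of_mem hzΩ
  have h2 := hz.2
  rw [h1] at h2
  have : (0 : ℝ) < 1 / ((m : ℝ) + 1) := by positivity
  linarith

private lemma exh_absorbs {Ω : Set (Fin n → ℂ)} (hΩ : IsOpen Ω) (hne : (Ωᶜ).Nonempty)
    {K : Set (Fin n → ℂ)} (hK : IsCompact K) (hKΩ : K ⊆ Ω) :
    ∃ m₀ : ℕ, ∀ m, m₀ ≤ m → K ⊆ exh Ω m := by
  rcases K.eq_empty_or_nonempty with rfl | hKne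
  · exact ⟨0, fun m _ => empty_subset _⟩
  obtain ⟨R, hR⟩ := hK.isBounded.exists_norm_le
  obtain ⟨w₀, hw₀K, hw₀⟩ := hK.exists_isMinOn hKne
    ((continuous_infDist_pt (Ωᶜ)).continuousOn)
  have hpos : 0 < infDist w₀ Ωᶜ := by
    have hcl : IsClosed (Ωᶜ) := hΩ.isClosed_compl
    exact (hcl.notMem_iff_infDist_pos hne).1 (fun h => h (hKΩ hw₀K))
  obtain ⟨a, ha⟩ := exists_nat_ge R
  obtain ⟨b, hb⟩ := exists_nat_one_div_lt hpos
  refine ⟨max a b, fun m hm => ?_⟩
  intro z hz
  refine ⟨(hR z hz).trans (ha.trans ?_), ?_⟩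
  · exact_mod_cast (le_max_left a b).trans hm
  · have h1 : infDist w₀ Ωᶜ ≤ infDist z Ωᶜ := hw₀ hz
    have h2 : (1 : ℝ) / ((m : ℝ) + 1) ≤ 1 / ((b : ℝ) + 1) := by
      have : (b : ℝ) ≤ m := by exact_mod_cast (le_max_right a b).trans hm
      exact one_div_le_one_div_of_le (by positivity) (by linarith)
    linarith

/-- Main construction, for an arbitrary connected open set whose entire hull is not everything. -/
private theorem construction {Ω : Set (Fin n → ℂ)} (hΩ : IsOpen Ω) (hconn : IsConnected Ω)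
    (x₀ : Fin n → ℂ)
    (hx₀ : ∀ K : Set (Fin n → ℂ), IsCompact K → K ⊆ Ω →
      ∃ f : (Fin n → ℂ) → ℂ, Differentiable ℂ f ∧ ∀ w ∈ K, ‖f w‖ < ‖f x₀‖)
    (L : Set (Fin n → ℂ)) (hL : IsCompact L) :
    ∃ Ω' : Set (Fin n → ℂ), IsOpen Ω' ∧ IsConnected Ω' ∧ Ω ⊂ Ω' ∧ L ⊆ Ω' ∧ Ω' ≠ Set.univ ∧
      (∀ K : Set (Fin n → ℂ), IsCompact K → K ⊆ Ω' →
          IsCompact {z | z ∈ Ω' ∧ ∀ f : (Fin n → ℂ) → ℂ, DifferentiableOn ℂ f Ω' →
            ∀ c : ℝ, (∀ w ∈ K, ‖f w‖ ≤ c) → ‖f z‖ ≤ c}) ∧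
      (∀ K : Set (Fin n → ℂ), IsCompact K → K ⊆ Ω' →
          IsCompact {z | z ∈ Ω' ∧ ∀ f : (Fin n → ℂ) → ℂ, Differentiable ℂ f →
            ∀ c : ℝ, (∀ w ∈ K, ‖f w‖ ≤ c) → ‖f z‖ ≤ c}) := by
  -- `x₀ ∉ Ω`
  have hx₀Ω : x₀ ∉ Ω := by
    intro h
    obtain ⟨f, _, hf⟩ := hx₀ {x₀} isCompact_singleton (by simpa using h)
    exact lt_irrefl _ (hf x₀ rfl)
  have hcne : (Ωᶜ).Nonempty := ⟨x₀, hx₀Ω⟩
  -- a boundary point
  obtain ⟨p, hpc, hpΩ⟩ : ∃ p, p ∈ closure Ω ∧ p ∉ Ω := by
    by_contra hcon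
    push Not at hcon
    have hclosed : IsClosed Ω := isClosed_of_closure_subset hcon
    have hclopen : IsClopen Ω := ⟨hclosed, hΩ⟩
    rcases isClopen_iff.1 hclopen with h | h
    · exact hconn.nonempty.ne_empty h
    · exact hx₀Ω (h ▸ mem_univ _)
  -- the radius
  obtain ⟨r, hr⟩ : ∃ r, L ∪ {x₀, p} ⊆ ball p r :=
    ((hL.union (isCompact_singleton.insert x₀)).isBounded).subset_ball p
  have hLr : L ⊆ ball p r := subset_union_left.trans hr
  have hx₀r : x₀ ∈ ball p r := hr (Or.inr (by simp))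
  have hpr : p ∈ ball p r := hr (Or.inr (by simp))
  have hr0 : 0 < r := by simpa using hpr
  -- a point of Ω in the ball
  obtain ⟨q, hqΩ, hqr⟩ : ∃ q ∈ Ω, q ∈ ball p r := by
    obtain ⟨q, hq, hd⟩ := Metric.mem_closure_iff.1 hpc r hr0
    exact ⟨q, hq, by rw [mem_ball, dist_comm]; exact hd⟩
  -- the functions
  choose f hfd hf using fun m : ℕ => hx₀ (exh Ω m) (exh_compact Ω m) (exh_subset m)
  -- the maxima over the closed ball
  have hX : IsCompact (closedBall p r) := isCompact_closedBall p r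
  have hXne : (closedBall p r).Nonempty := ⟨p, mem_closedBall_self hr0.le⟩
  choose y hyX hy using fun m : ℕ => hX.exists_isMaxOn hXne
    ((hfd m).continuous.norm.continuousOn)
  set M : ℕ → ℝ := fun m => ‖f m (y m)‖ with hM
  have hMx₀ : ∀ m, ‖f m x₀‖ ≤ M m := fun m => hy m (ball_subset_closedBall hx₀r)
  -- Ω is inside
  have hΩsub : Ω ⊆ bigSet f M := by
    intro z hz
    obtain ⟨δ, hδ, hδΩ⟩ := Metric.isOpen_iff.1 hΩ z hz
    have hKc : IsCompact (closedBall z (δ / 2)) := isCompact_closedBall z (δ / 2)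
    have hKΩ : closedBall z (δ / 2) ⊆ Ω :=
      (closedBall_subset_ball (by linarith)).trans hδΩ
    obtain ⟨m₀, hm₀⟩ := exh_absorbs hΩ hcne hKc hKΩ
    refine mem_iUnion.2 ⟨m₀, ?_⟩
    have hsub : ball z (δ / 2) ⊆ tailSet f M m₀ := by
      intro x hx j hj
      exact lt_of_lt_of_le (hf j x (hm₀ j hj (ball_subset_closedBall hx))) (hMx₀ j)
    exact interior_maximal hsub isOpen_ball (mem_ball_self (by linarith))
  -- the ball is inside
  have hball : ball p r ⊆ bigSet f M := by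
    obtain ⟨m₁, hm₁⟩ := exh_absorbs hΩ hcne (isCompact_singleton (x := q)) (by simpa using hqΩ)
    have hsub : ball p r ⊆ tailSet f M m₁ := by
      intro z hz j hj
      by_contra hge
      push Not at hge
      have hmax : IsMaxOn (norm ∘ f j) (ball p r) z := by
        intro x hx
        exact (hy j (ball_subset_closedBall hx)).trans hge
      have heq := Complex.norm_eqOn_of_isPreconnected_of_isMaxOn
        (convex_ball p r).isPreconnected isOpen_ball ((hfd j).differentiableOn) hz hmax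
      have h1 : ‖f j q‖ = ‖f j z‖ := by
        have := heq hqr
        simpa using this
      have h2 : ‖f j q‖ < ‖f j x₀‖ := hf j q (hm₁ j hj rfl)
      have h3 : ‖f j x₀‖ ≤ M j := hMx₀ j
      linarith
    exact (interior_maximal hsub isOpen_ball).trans
      (subset_iUnion (fun m => interior (tailSet f M m)) m₁)
  -- the closed ball is not inside
  have hproper : ¬ (closedBall p r ⊆ bigSet f M) := by
    intro h
    obtain ⟨m, hm⟩ := compact_subset_bigSet f M hX h
    have : y m ∈ tailSet f M m := interior_subset (hm (hyX m))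
    exact lt_irrefl _ (this m le_rfl)
  have hqE : q ∈ bigSet f M := hΩsub hqΩ
  refine ⟨connectedComponentIn (bigSet f M) q, (isOpen_bigSet f M).connectedComponentIn,
    isConnected_connectedComponentIn_iff.2 hqE, ?_, ?_, ?_, ?_, ?_⟩
  · have h1 : Ω ⊆ connectedComponentIn (bigSet f M) q :=
      hconn.isPreconnected.subset_connectedComponentIn hqΩ hΩsub
    have h2 : ball p r ⊆ connectedComponentIn (bigSet f M) q :=
      (convex_ball p r).isPreconnected.subset_connectedComponentIn hqr hball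
    exact (ssubset_iff_of_subset h1).2 ⟨p, h2 hpr, hpΩ⟩
  · exact hLr.trans ((convex_ball p r).isPreconnected.subset_connectedComponentIn hqr hball)
  · intro h
    apply hproper
    have := connectedComponentIn_subset (bigSet f M) q
    rw [h] at this
    exact (subset_univ _).trans this
  · intro K hK hKC
    exact isCompact_hull_of_entireHull (isCompact_entireHull f M hfd q hK hKC)
  · intro K hK hKC
    exact isCompact_entireHull f M hfd q hK hKC

/-- A Runge Fatou-Bieberbach domain is disjoint from the hull-complement: every point outside is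
separated from every compact subset by an entire function. -/
private theorem runge_separates {Ω : Set (Fin n → ℂ)}
    {F G : (Fin n → ℂ) → (Fin n → ℂ)} (hF : Differentiable ℂ F) (hG : DifferentiableOn ℂ G Ω)
    (hrange : Set.range F = Ω) (hGF : ∀ z, G (F z) = z)
    (hR : ∀ g : (Fin n → ℂ) → ℂ, DifferentiableOn ℂ g Ω → ∀ K : Set (Fin n → ℂ), IsCompact K →
      K ⊆ Ω → ∀ ε : ℝ, 0 < ε → ∃ f : (Fin n → ℂ) → ℂ, Differentiable ℂ f ∧
        ∀ z ∈ K, ‖f z - g z‖ < ε)
    (x : Fin n → ℂ) (hx : x ∉ Ω) (K : Set (Fin n → ℂ)) (hK : IsCompact K) (hKΩ : K ⊆ Ω) :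
    ∃ f : (Fin n → ℂ) → ℂ, Differentiable ℂ f ∧ ∀ w ∈ K, ‖f w‖ < ‖f x‖ := by
  classical
  rcases K.eq_empty_or_nonempty with rfl | hKne
  · exact ⟨fun _ => 0, differentiable_const _, by simp⟩
  by_contra hcon
  push Not at hcon
  -- `x` lies in the entire hull of `K`
  have hull : ∀ f : (Fin n → ℂ) → ℂ, Differentiable ℂ f → ∀ c : ℝ, (∀ w ∈ K, ‖f w‖ ≤ c) →
      ‖f x‖ ≤ c := by
    intro f hf c hc
    obtain ⟨w, hw, hle⟩ := hcon f hf
    exact hle.trans (hc w hw)
  -- approximate the components of `G` on `K`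
  have happ : ∀ (k : ℕ) (i : Fin n), ∃ f : (Fin n → ℂ) → ℂ, Differentiable ℂ f ∧
      ∀ z ∈ K, ‖f z - G z i‖ < 1 / ((k : ℝ) + 1) := by
    intro k i
    refine hR (fun z => G z i) ?_ K hK hKΩ _ (by positivity)
    exact (differentiableOn_pi.1 hG) i
  choose g hgd hg using happ
  -- the values at `x` form a Cauchy sequence
  have hcauchy : ∀ i, CauchySeq fun k => g k i x := by
    intro i
    rw [Metric.cauchySeq_iff]
    intro ε hε
    obtain ⟨N, hN⟩ := exists_nat_one_div_lt (half_pos hε)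
    refine ⟨N, fun a ha b hb => ?_⟩
    have hstep : ∀ m, N ≤ m → (1 : ℝ) / ((m : ℝ) + 1) ≤ 1 / ((N : ℝ) + 1) := by
      intro m hm
      have : (N : ℝ) ≤ m := by exact_mod_cast hm
      exact one_div_le_one_div_of_le (by positivity) (by linarith)
    have hle : ‖g a i x - g b i x‖ ≤ 1 / ((N : ℝ) + 1) + 1 / ((N : ℝ) + 1) := by
      refine hull (fun z => g a i z - g b i z) ((hgd a i).sub (hgd b i)) _ ?_
      intro w hw
      have e1 := hg a i w hw
      have e2 := hg b i w hw
      have e3 : g a i w - g b i w = (g a i w - G w i) - (g b i w - G w i) := by ring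
      calc ‖g a i w - g b i w‖ = ‖(g a i w - G w i) - (g b i w - G w i)‖ := by rw [e3]
        _ ≤ ‖g a i w - G w i‖ + ‖g b i w - G w i‖ := norm_sub_le _ _
        _ ≤ 1 / ((a : ℝ) + 1) + 1 / ((b : ℝ) + 1) := add_le_add e1.le e2.le
        _ ≤ _ := add_le_add (hstep a ha) (hstep b hb)
    rw [dist_eq_norm]
    linarith
  choose cc hcc using fun i => cauchySeq_tendsto_of_complete (hcauchy i)
  -- `x = F cc`
  have hxF : ∀ i, x i = F cc i := by
    intro i
    -- the functions `h k z = F (g k · z) i - z i` tend to `0` uniformly on `K`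
    have hlim : Tendsto (fun k => F (fun l => g k l x) i - x i) atTop (𝓝 (F cc i - x i)) := by
      have h1 : Tendsto (fun k => (fun l => g k l x : Fin n → ℂ)) atTop (𝓝 cc) :=
        tendsto_pi_nhds.2 hcc
      have h2 : Tendsto (fun k => F (fun l => g k l x)) atTop (𝓝 (F cc)) :=
        (hF.continuous.tendsto cc).comp h1
      exact ((tendsto_pi_nhds.1 h2) i).sub_const (x i)
    have hlim0 : Tendsto (fun k => F (fun l => g k l x) i - x i) atTop (𝓝 0) := by
      rw [Metric.tendsto_atTop]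
      intro ε hε
      -- uniform continuity of F near the compact set G(K)
      have hGK : IsCompact (G '' K) := hK.image_of_continuousOn (hG.continuousOn.mono hKΩ)
      have hcomp : IsCompact (cthickening 1 (G '' K)) := hGK.cthickening
      have huc := hcomp.uniformContinuousOn_of_continuous hF.continuous.continuousOn
      rw [Metric.uniformContinuousOn_iff] at huc
      obtain ⟨δ, hδ, hδF⟩ := huc (ε / 2) (half_pos hε)
      obtain ⟨N, hN⟩ := exists_nat_one_div_lt (lt_min hδ one_pos)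
      refine ⟨N, fun k hk => ?_⟩
      have hstep : (1 : ℝ) / ((k : ℝ) + 1) ≤ 1 / ((N : ℝ) + 1) := by
        have : (N : ℝ) ≤ k := by exact_mod_cast hk
        exact one_div_le_one_div_of_le (by positivity) (by linarith)
      have hk' : (1 : ℝ) / ((k : ℝ) + 1) < min δ 1 := lt_of_le_of_lt hstep hN
      have hle : ‖F (fun l => g k l x) i - x i‖ ≤ ε / 2 := by
        refine hull (fun z => F (fun l => g k l z) i - z i) ?_ _ ?_
        · have h1 : Differentiable ℂ (fun z => (fun l => g k l z : Fin n → ℂ)) :=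
            differentiable_pi.2 fun l => hgd k l
          have h2 : Differentiable ℂ (fun z => F (fun l => g k l z)) := hF.comp h1
          exact ((differentiable_pi.1 h2) i).sub (differentiable_apply i)
        · intro w hw
          have hwG : G w ∈ G '' K := mem_image_of_mem _ hw
          have hd : dist (fun l => g k l w : Fin n → ℂ) (G w) < min δ 1 := by
            refine lt_of_le_of_lt ?_ hk'
            refine (dist_pi_le_iff (by positivity)).2 fun l => ?_
            rw [dist_eq_norm]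
            exact (hg k l w hw).le
          have hmem : (fun l => g k l w : Fin n → ℂ) ∈ cthickening 1 (G '' K) := by
            refine mem_cthickening_of_dist_le _ (G w) 1 _ hwG ?_
            exact (hd.trans_le (min_le_right _ _)).le
          have hmem2 : G w ∈ cthickening 1 (G '' K) :=
            self_subset_cthickening _ hwG
          have hFw : F (G w) = w := by
            have : w ∈ Set.range F := by rw [hrange]; exact hKΩ hw
            obtain ⟨u, rfl⟩ := this
            rw [hGF]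
          have h3 := hδF _ hmem _ hmem2 (hd.trans_le (min_le_left _ _))
          rw [hFw] at h3
          have h4 : dist (F (fun l => g k l w) i) (w i) ≤ dist (F (fun l => g k l w)) w :=
            dist_le_pi_dist _ _ i
          rw [dist_eq_norm] at h4
          exact h4.trans h3.le
      rw [dist_eq_norm, sub_zero]
      linarith
    have := tendsto_nhds_unique hlim hlim0
    exact (sub_eq_zero.1 this).symm
  apply hx
  rw [← hrange]
  exact ⟨cc, (funext hxF).symm⟩

/-- Let `n ≥ 2` and let `Ω ≠ ℂⁿ` be a Fatou-Bieberbach domain which is Runge, or, more generally,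
such that some point `x₀` of `ℂⁿ` lies in the entire-holomorphic hull of no compact subset of `Ω`.
Then for every compact set `L` there is a domain `Ω'` with `Ω ⊊ Ω' ⊊ ℂⁿ` and `L ⊆ Ω'` which is
holomorphically convex and even Runge: hulls of compact subsets of `Ω'`, with respect to the
holomorphic functions on `Ω'` and also with respect to the entire functions, meet `Ω'` in compact
sets. -/
theorem result :
    ∀ (n : ℕ), 2 ≤ n → ∀ Ω : Set (Fin n → ℂ),
      IsOpen Ω →
      (∃ F G : (Fin n → ℂ) → (Fin n → ℂ),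
          Differentiable ℂ F ∧ DifferentiableOn ℂ G Ω ∧ Set.range F = Ω ∧
            ∀ z, G (F z) = z) →
      Ω ≠ Set.univ →
      ((∀ g : (Fin n → ℂ) → ℂ, DifferentiableOn ℂ g Ω →
          ∀ K : Set (Fin n → ℂ), IsCompact K → K ⊆ Ω → ∀ ε : ℝ, 0 < ε →
            ∃ f : (Fin n → ℂ) → ℂ, Differentiable ℂ f ∧ ∀ z ∈ K, ‖f z - g z‖ < ε) ∨
        (∃ x₀ : Fin n → ℂ, ∀ K : Set (Fin n → ℂ), IsCompact K → K ⊆ Ω →
            ∃ f : (Fin n → ℂ) → ℂ, Differentiable ℂ f ∧ ∀ w ∈ K, ‖f w‖ < ‖f x₀‖)) →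
      ∀ L : Set (Fin n → ℂ), IsCompact L →
        ∃ Ω' : Set (Fin n → ℂ), IsOpen Ω' ∧ IsConnected Ω' ∧ Ω ⊂ Ω' ∧ L ⊆ Ω' ∧ Ω' ≠ Set.univ ∧
          (∀ K : Set (Fin n → ℂ), IsCompact K → K ⊆ Ω' →
            IsCompact {z | z ∈ Ω' ∧ ∀ f : (Fin n → ℂ) → ℂ, DifferentiableOn ℂ f Ω' →
              ∀ c : ℝ, (∀ w ∈ K, ‖f w‖ ≤ c) → ‖f z‖ ≤ c}) ∧
          (∀ K : Set (Fin n → ℂ), IsCompact K → K ⊆ Ω' →
            IsCompact {z | z ∈ Ω' ∧ ∀ f : (Fin n → ℂ) → ℂ, Differentiable ℂ f →
              ∀ c : ℝ, (∀ w ∈ K, ‖f w‖ ≤ c) → ‖f z‖ ≤ c}) := by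
  intro n _ Ω hΩ hFB hne hhyp L hL
  obtain ⟨F, G, hF, hG, hrange, hGF⟩ := hFB
  have hconn : IsConnected Ω := by
    rw [← hrange]
    exact isConnected_range hF.continuous
  have hx : ∃ x₀ : Fin n → ℂ, ∀ K : Set (Fin n → ℂ), IsCompact K → K ⊆ Ω →
      ∃ f : (Fin n → ℂ) → ℂ, Differentiable ℂ f ∧ ∀ w ∈ K, ‖f w‖ < ‖f x₀‖ := by
    rcases hhyp with hR | hx
    · obtain ⟨x, hx⟩ := (Set.ne_univ_iff_exists_notMem Ω).1 hne
      exact ⟨x, fun K hK hKΩ => runge_separates hF hG hrange hGF hR x hx K hK hKΩ⟩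
    · exact hx
  obtain ⟨x₀, hx₀⟩ := hx
  exact construction hΩ hconn x₀ hx₀ L hL

end Pool.Agent.Results.MP_294ab0_an.RungeFB
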