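import Mathlib
import Pool.Agent.H39FB.Omit
import Pool.Agent.Results.MP_294ab0_an.RungeFB

set_option autoImplicit false

/-!
# Fatou-Bieberbach domains and quotients of entire functions
-/

open Set Metric

namespace Pool.Agent.Results.MP_294ab0_an.QuotientHull

/-- Let `Ω` be a Fatou-Bieberbach domain. If some entire function without zeros in `Ω` has a zero
in `ℂⁿ`, or if every holomorphic function on `Ω` is, on every compact subset, a uniform limit of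
quotients `p / q` of entire functions with `q` zero-free on `Ω`, or if some point `x₀` can be
separated from every compact subset of `Ω` by such a quotient with `q x₀ ≠ 0`, then there is a
connected holomorphically convex open set strictly between `Ω` and `ℂⁿ`. -/
theorem result :
    ∀ (n : ℕ), 2 ≤ n → ∀ Ω : Set (Fin n → ℂ),
      IsOpen Ω →
      (∃ F G : (Fin n → ℂ) → (Fin n → ℂ),
          Differentiable ℂ F ∧ DifferentiableOn ℂ G Ω ∧ Set.range F = Ω ∧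
            ∀ z, G (F z) = z) →
      Ω ≠ Set.univ →
      ((∃ q : (Fin n → ℂ) → ℂ, Differentiable ℂ q ∧ (∀ z ∈ Ω, q z ≠ 0) ∧ ∃ z₀, q z₀ = 0) ∨
        (∀ g : (Fin n → ℂ) → ℂ, DifferentiableOn ℂ g Ω →
          ∀ K : Set (Fin n → ℂ), IsCompact K → K ⊆ Ω → ∀ ε : ℝ, 0 < ε →
            ∃ p q : (Fin n → ℂ) → ℂ, Differentiable ℂ p ∧ Differentiable ℂ q ∧
              (∀ z ∈ Ω, q z ≠ 0) ∧ ∀ z ∈ K, ‖p z / q z - g z‖ < ε) ∨
        (∃ x₀ : Fin n → ℂ, ∀ K : Set (Fin n → ℂ), IsCompact K → K ⊆ Ω →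
            ∃ p q : (Fin n → ℂ) → ℂ, Differentiable ℂ p ∧ Differentiable ℂ q ∧
              (∀ z ∈ Ω, q z ≠ 0) ∧ q x₀ ≠ 0 ∧ ∀ w ∈ K, ‖p w / q w‖ < ‖p x₀ / q x₀‖)) →
      ∃ Ω' : Set (Fin n → ℂ), IsOpen Ω' ∧ IsConnected Ω' ∧ Ω ⊂ Ω' ∧ Ω' ≠ Set.univ ∧
        ∀ K : Set (Fin n → ℂ), IsCompact K → K ⊆ Ω' →
          IsCompact {z | z ∈ Ω' ∧ ∀ f : (Fin n → ℂ) → ℂ, DifferentiableOn ℂ f Ω' →
            ∀ c : ℝ, (∀ w ∈ K, ‖f w‖ ≤ c) → ‖f z‖ ≤ c} := by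
  intro n hn Ω hΩ hFB hne hyp
  by_cases hom : ∃ q : (Fin n → ℂ) → ℂ, Differentiable ℂ q ∧ (∀ z ∈ Ω, q z ≠ 0) ∧
      ∃ z₀, q z₀ = 0
  · obtain ⟨q, hq, hq0, z₀, hz₀⟩ := hom
    obtain ⟨F, G, hF, hG, hrange, hGF⟩ := hFB
    have hx : F 0 ∈ Ω := hrange ▸ mem_range_self 0
    refine ⟨{z | q z ≠ 0}, isOpen_ne_fun hq.continuous continuous_const,
      (H39FB.isPathConnected_ne_zero q hq (F 0) (hq0 _ hx)).isConnected, ?_, ?_, ?_⟩
    · rw [Set.ssubset_iff_exists]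
      refine ⟨fun z hz => hq0 z hz, ?_⟩
      obtain ⟨y, hy, hyΩ⟩ := H39FB.ne_complement Ω F G hF hG hrange hGF q hq hq0 z₀ hz₀
      exact ⟨y, hy, hyΩ⟩
    · intro h
      have : z₀ ∈ {z | q z ≠ 0} := h ▸ mem_univ z₀
      exact this hz₀
    · intro K hK hKq
      exact H39FB.holo_convex q hq K hK hKq
  · have hzf : ∀ q : (Fin n → ℂ) → ℂ, Differentiable ℂ q → (∀ z ∈ Ω, q z ≠ 0) →
        ∀ z, q z ≠ 0 := by
      intro q hq hq0 z hz
      exact hom ⟨q, hq, hq0, z, hz⟩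
    have hdiv : ∀ p q : (Fin n → ℂ) → ℂ, Differentiable ℂ p → Differentiable ℂ q →
        (∀ z ∈ Ω, q z ≠ 0) → Differentiable ℂ (fun z => p z / q z) := by
      intro p q hp hq hq0
      simp_rw [div_eq_mul_inv]
      exact fun z => (hp z).mul ((hq z).inv (hzf q hq hq0 z))
    have hmain : (∀ g : (Fin n → ℂ) → ℂ, DifferentiableOn ℂ g Ω →
          ∀ K : Set (Fin n → ℂ), IsCompact K → K ⊆ Ω → ∀ ε : ℝ, 0 < ε →
            ∃ f : (Fin n → ℂ) → ℂ, Differentiable ℂ f ∧ ∀ z ∈ K, ‖f z - g z‖ < ε) ∨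
        (∃ x₀ : Fin n → ℂ, ∀ K : Set (Fin n → ℂ), IsCompact K → K ⊆ Ω →
            ∃ f : (Fin n → ℂ) → ℂ, Differentiable ℂ f ∧ ∀ w ∈ K, ‖f w‖ < ‖f x₀‖) := by
      rcases hyp with h | h | h
      · exact absurd h hom
      · left
        intro g hg K hK hKΩ ε hε
        obtain ⟨p, q, hp, hq, hq0, hlt⟩ := h g hg K hK hKΩ ε hε
        exact ⟨fun z => p z / q z, hdiv p q hp hq hq0, hlt⟩
      · right
        obtain ⟨x₀, h⟩ := h
        refine ⟨x₀, fun K hK hKΩ => ?_⟩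
        obtain ⟨p, q, hp, hq, hq0, _, hlt⟩ := h K hK hKΩ
        exact ⟨fun z => p z / q z, hdiv p q hp hq hq0, hlt⟩
    obtain ⟨Ω', h1, h2, h3, _, h5, h6, _⟩ :=
      RungeFB.result n hn Ω hΩ hFB hne hmain ∅ isCompact_empty
    exact ⟨Ω', h1, h2, h3, h5, h6⟩

end Pool.Agent.Results.MP_294ab0_an.QuotientHull
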